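import Pool.Agent.H306R2.RZ.Defs4
import Pool.Agent.H379R2.W.JChar
import Pool.Agent.Helper112.Arith

/-!
Project RZ, task HE: the elementary bound in the large sieve for real characters.
-/

set_option autoImplicit false

namespace Pool.Agent.H355R3.RZ4HE

open Finset Filter Topology MeasureTheory Pool.Agent.H306R2.RZ

theorem js_mul (k : ℤ) (a b : ℕ) (ha : a ≠ 0) (hb : b ≠ 0) : js k (a * b) = js k a * js k b := by
  have : NeZero a := ⟨ha⟩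
  have : NeZero b := ⟨hb⟩
  unfold js
  rw [jacobiSym.mul_right]; push_cast; ring

theorem js_abs (k : ℤ) (a : ℕ) : |js k a| ≤ 1 := by
  unfold js
  rcases jacobiSym.trichotomy k a with h | h | h <;> rw [h] <;> simp

theorem mem_osf {N n : ℕ} (h : n ∈ osf N) : 1 ≤ n ∧ n ≤ N ∧ Odd n ∧ Squarefree n := by
  unfold osf at h
  rw [mem_filter, mem_Icc] at h
  exact ⟨h.1.1, h.1.2, h.2.1, h.2.2⟩

/-- Pólya-Vinogradov for products of two different odd squarefree numbers -/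
theorem pv (δ : ℝ) (hδ : 0 < δ) : ∃ C : ℝ, 0 < C ∧ ∀ (M N n1 n2 : ℕ), 1 ≤ N → n1 ∈ osf N →
    n2 ∈ osf N → n1 ≠ n2 →
    |∑ m ∈ Icc 1 M, js m (n1 * n2)| ≤ C * (N : ℝ) ^ (1 + 4 * δ) := by
  obtain ⟨C, hC, hdiv⟩ := Pool.Agent.Helper112.divisor_bound δ hδ
  refine ⟨C * 2 * (1 + 1 / δ), by positivity, ?_⟩
  intro M N n1 n2 hN h1 h2 hne
  obtain ⟨a1, a2, a3, a4⟩ := mem_osf h1
  obtain ⟨b1, b2, b3, b4⟩ := mem_osf h2
  have hex := Pool.Agent.H379R2.W.exists_neg_one a4 b4 a3 b3 hne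
  have hpos : 1 ≤ n1 * n2 := Nat.mul_pos a1 b1
  have h := Pool.Agent.H379R2.W.jacobi_sum_le (n1 * n2) hpos hex M
  have e : ((∑ n ∈ Icc 1 M, jacobiSym (n : ℤ) (n1 * n2) : ℤ) : ℝ) =
      ∑ m ∈ Icc 1 M, js m (n1 * n2) := by
    unfold js
    push_cast
    rfl
  rw [e] at h
  refine h.trans ?_
  have hx1 : (1 : ℝ) ≤ ((n1 * n2 : ℕ) : ℝ) := by exact_mod_cast hpos
  have hx0 : (0 : ℝ) < ((n1 * n2 : ℕ) : ℝ) := by linarith
  have hd : (((n1 * n2).divisors.card : ℕ) : ℝ) ≤ C * ((n1 * n2 : ℕ) : ℝ) ^ δ := hdiv _ (by omega)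
  have hlog : 1 + Real.log ((n1 * n2 : ℕ) : ℝ) ≤ (1 + 1 / δ) * ((n1 * n2 : ℕ) : ℝ) ^ δ := by
    have h3 : (1 : ℝ) ≤ ((n1 * n2 : ℕ) : ℝ) ^ δ := Real.one_le_rpow hx1 hδ.le
    have h4 := Real.log_le_rpow_div hx0.le hδ
    rw [add_mul, one_mul, one_div, inv_mul_eq_div]
    linarith
  have hlog0 : 0 ≤ 1 + Real.log ((n1 * n2 : ℕ) : ℝ) := by
    have := Real.log_nonneg hx1
    linarith
  calc (((n1 * n2).divisors.card : ℕ) : ℝ) *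
        (2 * Real.sqrt ((n1 * n2 : ℕ) : ℝ) * (1 + Real.log ((n1 * n2 : ℕ) : ℝ)))
      ≤ (C * ((n1 * n2 : ℕ) : ℝ) ^ δ) *
        (2 * Real.sqrt ((n1 * n2 : ℕ) : ℝ) * ((1 + 1 / δ) * ((n1 * n2 : ℕ) : ℝ) ^ δ)) := by
        gcongr
    _ = C * 2 * (1 + 1 / δ) * (((n1 * n2 : ℕ) : ℝ) ^ δ * ((n1 * n2 : ℕ) : ℝ) ^ (1 / 2 : ℝ) *
          ((n1 * n2 : ℕ) : ℝ) ^ δ) := by
        rw [Real.sqrt_eq_rpow]; ring
    _ = C * 2 * (1 + 1 / δ) * ((n1 * n2 : ℕ) : ℝ) ^ (1 / 2 + 2 * δ) := by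
        rw [← Real.rpow_add hx0, ← Real.rpow_add hx0]
        congr 2
        ring
    _ ≤ C * 2 * (1 + 1 / δ) * ((N : ℝ) ^ (2 : ℕ)) ^ (1 / 2 + 2 * δ) := by
        have h5 : ((n1 * n2 : ℕ) : ℝ) ≤ (N : ℝ) ^ (2 : ℕ) := by
          rw [pow_two]
          exact_mod_cast Nat.mul_le_mul a2 b2
        gcongr
    _ = C * 2 * (1 + 1 / δ) * (N : ℝ) ^ (1 + 4 * δ) := by
        rw [← Real.rpow_natCast, ← Real.rpow_mul (Nat.cast_nonneg _)]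
        congr 2
        push_cast
        ring

theorem expand (M N : ℕ) (a : ℕ → ℂ) :
    ∑ m ∈ Icc 1 M, ‖∑ n ∈ osf N, a n * (js m n : ℂ)‖ ^ 2 ≤
      ∑ n1 ∈ osf N, ∑ n2 ∈ osf N, ‖a n1‖ * ‖a n2‖ * |∑ m ∈ Icc 1 M, js m (n1 * n2)| := by
  have h : ((∑ m ∈ Icc 1 M, ‖∑ n ∈ osf N, a n * (js m n : ℂ)‖ ^ 2 : ℝ) : ℂ) =
      ∑ n1 ∈ osf N, ∑ n2 ∈ osf N, a n1 * (starRingEnd ℂ) (a n2) *
        ((∑ m ∈ Icc 1 M, js m (n1 * n2) : ℝ) : ℂ) := by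
    push_cast
    have h1 : ∀ m ∈ Icc 1 M, (((‖∑ n ∈ osf N, a n * (js m n : ℂ)‖ : ℝ) : ℂ)) ^ 2 =
        ∑ n1 ∈ osf N, ∑ n2 ∈ osf N, a n1 * (starRingEnd ℂ) (a n2) * ((js m (n1 * n2) : ℝ) : ℂ) := by
      intro m _
      rw [← Complex.mul_conj', map_sum, sum_mul_sum]
      refine sum_congr rfl fun n1 hn1 => sum_congr rfl fun n2 hn2 => ?_
      have e1 := (mem_osf hn1).1
      have e2 := (mem_osf hn2).1
      rw [map_mul, Complex.conj_ofReal, js_mul _ _ _ (by omega) (by omega)]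
      push_cast
      ring
    rw [sum_congr rfl h1, sum_comm]
    refine sum_congr rfl fun n1 _ => ?_
    rw [sum_comm]
    refine sum_congr rfl fun n2 _ => ?_
    rw [mul_sum]
  have h2 : ∑ m ∈ Icc 1 M, ‖∑ n ∈ osf N, a n * (js m n : ℂ)‖ ^ 2 =
      ‖((∑ m ∈ Icc 1 M, ‖∑ n ∈ osf N, a n * (js m n : ℂ)‖ ^ 2 : ℝ) : ℂ)‖ := by
    rw [Complex.norm_real, Real.norm_of_nonneg]
    exact sum_nonneg fun _ _ => by positivity
  rw [h2, h]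
  refine (norm_sum_le _ _).trans (sum_le_sum fun n1 _ => ?_)
  refine (norm_sum_le _ _).trans (sum_le_sum fun n2 _ => ?_)
  rw [norm_mul, norm_mul, RCLike.norm_conj, Complex.norm_real, Real.norm_eq_abs]

theorem HE : LSP 2 := by
  intro ε hε
  obtain ⟨C, hC, hpv⟩ := pv (ε / 4) (by positivity)
  refine ⟨1 + C, by positivity, ?_⟩
  intro M N hM hN a
  have hM1 : (1 : ℝ) ≤ M := by exact_mod_cast hM
  have hN1 : (1 : ℝ) ≤ N := by exact_mod_cast hN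
  set S2 : ℝ := ∑ n ∈ osf N, ‖a n‖ ^ 2 with hS2
  have hS20 : 0 ≤ S2 := sum_nonneg fun _ _ => by positivity
  have h1 : ∑ m ∈ sqf M, ‖∑ n ∈ osf N, a n * (js m n : ℂ)‖ ^ 2 ≤
      ∑ m ∈ Icc 1 M, ‖∑ n ∈ osf N, a n * (js m n : ℂ)‖ ^ 2 := by
    apply sum_le_sum_of_subset_of_nonneg
    · unfold sqf; exact filter_subset _ _
    · intro _ _ _; positivity
  have h2 : ∀ n1 ∈ osf N, ∀ n2 ∈ osf N, ‖a n1‖ * ‖a n2‖ * |∑ m ∈ Icc 1 M, js m (n1 * n2)| ≤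
      (if n1 = n2 then ‖a n1‖ ^ 2 * M else 0) +
        ‖a n1‖ * ‖a n2‖ * (C * (N : ℝ) ^ (1 + 4 * (ε / 4))) := by
    intro n1 hn1 n2 hn2
    by_cases h : n1 = n2
    · subst h
      rw [if_pos rfl]
      have h3 : |∑ m ∈ Icc 1 M, js m (n1 * n1)| ≤ M := by
        refine (abs_sum_le_sum_abs _ _).trans ?_
        have h5 : ∀ m ∈ Icc 1 M, |js (m : ℤ) (n1 * n1)| ≤ 1 := fun m _ => js_abs _ _
        refine (sum_le_sum h5).trans ?_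
        simp
      have h4 : 0 ≤ ‖a n1‖ * ‖a n1‖ * (C * (N : ℝ) ^ (1 + 4 * (ε / 4))) := by positivity
      calc ‖a n1‖ * ‖a n1‖ * |∑ m ∈ Icc 1 M, js m (n1 * n1)| ≤ ‖a n1‖ * ‖a n1‖ * M := by gcongr
        _ ≤ _ := by rw [← pow_two]; linarith [h4]
    · rw [if_neg h, zero_add]
      have := hpv M N n1 n2 hN hn1 hn2 h
      gcongr
  have h3 : (∑ n ∈ osf N, ‖a n‖) ^ 2 ≤ N * S2 := by
    refine (sq_sum_le_card_mul_sum_sq).trans ?_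
    have hc : ((osf N).card : ℝ) ≤ N := by
      have : (osf N).card ≤ N := by
        unfold osf
        refine (card_filter_le _ _).trans ?_
        simp
      exact_mod_cast this
    gcongr
  have h4 : ∑ m ∈ Icc 1 M, ‖∑ n ∈ osf N, a n * (js m n : ℂ)‖ ^ 2 ≤
      M * S2 + C * (N : ℝ) ^ (1 + 4 * (ε / 4)) * (N * S2) := by
    refine (expand M N a).trans ?_
    refine (sum_le_sum fun n1 hn1 => sum_le_sum fun n2 hn2 => h2 n1 hn1 n2 hn2).trans ?_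
    simp only [sum_add_distrib]
    have e1 : ∑ n1 ∈ osf N, ∑ n2 ∈ osf N, (if n1 = n2 then ‖a n1‖ ^ 2 * (M : ℝ) else 0) = M * S2 := by
      rw [hS2, mul_sum]
      refine sum_congr rfl fun n1 hn1 => ?_
      rw [sum_ite_eq, if_pos hn1]
      ring
    have e2 : ∑ n1 ∈ osf N, ∑ n2 ∈ osf N, ‖a n1‖ * ‖a n2‖ * (C * (N : ℝ) ^ (1 + 4 * (ε / 4))) =
        C * (N : ℝ) ^ (1 + 4 * (ε / 4)) * (∑ n ∈ osf N, ‖a n‖) ^ 2 := by
      rw [pow_two, sum_mul_sum, mul_sum]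
      refine sum_congr rfl fun n1 _ => ?_
      rw [mul_sum]
      exact sum_congr rfl fun n2 _ => by ring
    rw [e1, e2]
    gcongr
  refine (h1.trans h4).trans ?_
  have hMN : (1 : ℝ) ≤ ((M : ℝ) * N) ^ ε := Real.one_le_rpow (by nlinarith) hε.le
  have hNe : (N : ℝ) ^ ε ≤ ((M : ℝ) * N) ^ ε :=
    Real.rpow_le_rpow (by positivity) (by nlinarith) hε.le
  have e5 : (N : ℝ) ^ (1 + 4 * (ε / 4)) = N * (N : ℝ) ^ ε := by
    rw [show 1 + 4 * (ε / 4) = 1 + ε by ring, Real.rpow_add (by linarith), Real.rpow_one]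
  have e6 : (N : ℝ) ^ (2 : ℝ) = N * N := by
    rw [show (2 : ℝ) = ((2 : ℕ) : ℝ) by norm_num, Real.rpow_natCast]
    ring
  rw [e5, e6]
  have h5 : (M : ℝ) ≤ ((M : ℝ) * N) ^ ε * M := by nlinarith
  have h6 : (N : ℝ) * (N : ℝ) ^ ε * N ≤ ((M : ℝ) * N) ^ ε * (N * N) := by
    calc (N : ℝ) * (N : ℝ) ^ ε * N = (N : ℝ) ^ ε * (N * N) := by ring
      _ ≤ _ := by gcongr
  calc M * S2 + C * (N * (N : ℝ) ^ ε) * (N * S2) = (M + C * (N * (N : ℝ) ^ ε * N)) * S2 := by ring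
    _ ≤ ((1 + C) * ((M : ℝ) * N) ^ ε * (M + N * N)) * S2 := by
        apply mul_le_mul_of_nonneg_right _ hS20
        have h7 : C * (N * (N : ℝ) ^ ε * N) ≤ C * (((M : ℝ) * N) ^ ε * (N * N)) :=
          mul_le_mul_of_nonneg_left h6 hC.le
        have h8 : 0 ≤ C * (((M : ℝ) * N) ^ ε * M) := by positivity
        have h9 : 0 ≤ ((M : ℝ) * N) ^ ε * (N * N) := by positivity
        nlinarith

end Pool.Agent.H355R3.RZ4HE
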