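import Pool.Agent.H923R2.FZ.Stubs2

/-! Task SPL of the project FZ (helper355): the first `l` copies and the others. -/

set_option autoImplicit false

namespace Pool.Agent.H923R2.FZ.T_SPL

open Pool.Agent.H923R2.FP Pool.Agent.H923R2.FZ

/-- the index -/
def ix (l : ℕ) : Fin l ⊕ ℕ → ℕ := Sum.elim (fun j => (j : ℕ)) (fun n => l + n)

theorem ix_inj (l : ℕ) : Function.Injective (ix l) := by
  rintro (a | a) (b | b) h
  · simp only [ix, Sum.elim_inl] at h
    rw [Fin.ext h]
  · simp only [ix, Sum.elim_inl, Sum.elim_inr] at h
    have := a.2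
    omega
  · simp only [ix, Sum.elim_inl, Sum.elim_inr] at h
    have := b.2
    omega
  · simp only [ix, Sum.elim_inr] at h
    rw [show a = b by omega]

theorem t_SPL : S_SPL := by
  intro B _ τ f h l
  refine ⟨h.fts, fun j x => h.tr j x, fun n x => h.tr (l + n) x, ?_, ?_⟩
  · intro w hw h1 h2
    have h3 := h.free (w.map fun z => (ix l z.1, z.2)) (by simpa using hw) ?_ ?_
    · rw [List.map_map] at h3
      exact h3
    · intro z hz
      obtain ⟨z', hz', rfl⟩ := List.mem_map.1 hz
      obtain ⟨h4, h5⟩ := h1 z' hz'
      refine ⟨?_, h5⟩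
      obtain ⟨(a | a), x⟩ := z'
      · exact h4
      · exact h4
    · rw [List.isChain_map]
      refine h2.imp fun x y hxy h6 => hxy (ix_inj l h6)
  · have h3 : ((⋃ j : Fin l, Set.range (f j)) ∪ ⋃ n, Set.range (f (l + n))) =
        ⋃ j, Set.range (f j) := by
      apply Set.Subset.antisymm
      · refine Set.union_subset (Set.iUnion_subset fun j => ?_) (Set.iUnion_subset fun n => ?_)
        · exact Set.subset_iUnion (fun j => Set.range (f j)) (j : ℕ)
        · exact Set.subset_iUnion (fun j => Set.range (f j)) (l + n)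
      · refine Set.iUnion_subset fun j => ?_
        by_cases hj : j < l
        · exact Set.subset_union_of_subset_left
            (Set.subset_iUnion (fun j : Fin l => Set.range (f j)) ⟨j, hj⟩) _
        · refine Set.subset_union_of_subset_right ?_ _
          have h4 := Set.subset_iUnion (fun n : ℕ => Set.range (f (l + n))) (j - l)
          rwa [show l + (j - l) = j by omega] at h4
    show (StarAlgebra.adjoin ℂ ((⋃ j : Fin l, Set.range (f j)) ∪
      ⋃ n, Set.range (f (l + n)))).topologicalClosure = ⊤
    rw [h3]
    exact h.gen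

end Pool.Agent.H923R2.FZ.T_SPL
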