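import Pool.Agent.H355R3.RZ7_SP3A

/-!
Project RZ, task SP3: small split primes.
-/

set_option autoImplicit false

namespace Pool.Agent.H355R3.RZ7SP3

open Finset Filter Topology MeasureTheory Pool.Agent.H306R2.RZ

/-- the statement of task SP2 -/
def SP2St : Prop := ∀ (ε : ℝ), 0 < ε → ∃ C : ℝ, 0 < C ∧ ∀ M y k m N : ℕ, 1 ≤ M → 2 ≤ y →
    4 * m * k + k ≤ N → N + m + Nat.log 2 M ≤ ((Icc 1 y).filter (fun p => p.Prime ∧ Odd p)).card →
    (((sqf M).filter (fun s : ℕ =>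
        ((Icc 1 y).filter (fun p => p.Prime ∧ Odd p ∧ js (-(s : ℤ)) p = 1)).card ≤ m)).card : ℝ) *
      ((N.choose k : ℝ) / 2) ^ 2 ≤
      C * ((M : ℝ) * (y : ℝ) ^ k) ^ ε * (M + (y : ℝ) ^ k) *
        (((Icc 1 y).filter (fun p => p.Prime ∧ Odd p)).card.choose k : ℝ)

def Fund (d : ℤ) : Prop := (d % 4 = 1 ∧ Squarefree d) ∨
  (∃ m : ℤ, d = 4 * m ∧ (m % 4 = 2 ∨ m % 4 = 3) ∧ Squarefree m)

def Spl (A : ℝ) (d : ℤ) : Set ℕ := {p : ℕ | p.Prime ∧ (p : ℝ) < Real.log (|(d : ℝ)|) ^ A ∧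
  ¬ ((p : ℤ) ∣ d) ∧ ∃ x : ℤ, (4 * (p : ℤ)) ∣ x ^ 2 - d}

def Exc (A : ℝ) (X : ℕ) : Set ℤ := {d : ℤ | d < 0 ∧ -(X : ℤ) ≤ d ∧ Fund d ∧
  ((Spl A d).ncard : ℝ) < Real.log (|(d : ℝ)|) ^ ((A - 1) / 2)}

/-- squarefree numbers with few split primes -/
noncomputable def FF (X y m : ℕ) : Finset ℕ := (sqf X).filter (fun s : ℕ =>
  ((Icc 1 y).filter (fun p => p.Prime ∧ Odd p ∧ js (-(s : ℤ)) p = 1)).card ≤ m)

theorem finite_Spl (A : ℝ) (d : ℤ) : (Spl A d).Finite := by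
  apply (Set.finite_Iio ⌈Real.log (|(d : ℝ)|) ^ A⌉₊).subset
  rintro p ⟨_, h, _⟩
  exact Nat.lt_ceil.2 h

theorem split_of_js (s : ℕ) (d : ℤ) (p : ℕ) (hp : p.Prime) (ho : Odd p)
    (hjs : js (-(s : ℤ)) p = 1) (hd : d = -(s : ℤ) ∨ d = 4 * (-(s : ℤ)))
    (hd4 : d % 4 = 1 ∨ d % 4 = 0) :
    ¬ ((p : ℤ) ∣ d) ∧ ∃ x : ℤ, (4 * (p : ℤ)) ∣ x ^ 2 - d := by
  have hF := Fact.mk hp
  have h1 : jacobiSym (-(s : ℤ)) p = 1 := by
    unfold js at hjs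
    exact_mod_cast hjs
  rw [← jacobiSym.legendreSym.to_jacobiSym] at h1
  have h0 : (((-(s : ℤ) : ℤ)) : ZMod p) ≠ 0 := by
    intro h
    rw [(legendreSym.eq_zero_iff p (-(s : ℤ))).2 h] at h1
    exact absurd h1 (by norm_num)
  have hnd : ¬ ((p : ℤ) ∣ -(s : ℤ)) := by
    intro h
    exact h0 ((ZMod.intCast_zmod_eq_zero_iff_dvd _ p).2 h)
  obtain ⟨z, hz⟩ := (legendreSym.eq_one_iff p h0).1 h1
  have hx0 : (p : ℤ) ∣ (z.val : ℤ) ^ 2 - (-(s : ℤ)) := by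
    rw [← ZMod.intCast_zmod_eq_zero_iff_dvd]
    push_cast
    rw [ZMod.natCast_zmod_val]
    push_cast at hz
    rw [hz]
    ring
  have hp2 : ¬ ((p : ℤ) ∣ 4) := by
    intro h
    have h2 : p ∣ 4 := by exact_mod_cast h
    have h3 : p ∣ 2 := hp.dvd_of_dvd_pow (show p ∣ 2 ^ 2 by norm_num; exact h2)
    have h4 := (Nat.prime_dvd_prime_iff_eq hp Nat.prime_two).1 h3
    rw [h4] at ho
    exact absurd ho (by decide)
  have hpi : Prime (p : ℤ) := Nat.prime_iff_prime_int.1 hp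
  obtain ⟨x1, hx1⟩ : ∃ x1 : ℤ, (p : ℤ) ∣ x1 ^ 2 - d := by
    rcases hd with rfl | rfl
    · exact ⟨_, hx0⟩
    · refine ⟨2 * z.val, ?_⟩
      have : (2 * (z.val : ℤ)) ^ 2 - 4 * (-(s : ℤ)) = 4 * ((z.val : ℤ) ^ 2 - (-(s : ℤ))) := by ring
      rw [this]
      exact Dvd.dvd.mul_left hx0 4
  constructor
  · intro h
    rcases hd with rfl | rfl
    · exact hnd h
    · rcases hpi.dvd_or_dvd h with h | h
      · exact hp2 h
      · exact hnd h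
  · -- adjust the parity
    obtain ⟨j, hj⟩ := ho
    have hx2 : (p : ℤ) ∣ (x1 + p) ^ 2 - d := by
      have : (x1 + (p : ℤ)) ^ 2 - d = (x1 ^ 2 - d) + p * (2 * x1 + p) := by ring
      rw [this]
      exact dvd_add hx1 (Dvd.intro _ rfl)
    have hcop : IsCoprime (4 : ℤ) (p : ℤ) := by
      have : Nat.Coprime 4 p := by
        rw [Nat.coprime_comm, Nat.Prime.coprime_iff_not_dvd hp]
        intro h
        exact hp2 (by exact_mod_cast h)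
      exact_mod_cast Nat.isCoprime_iff_coprime.2 this
    have key : ∀ x : ℤ, (x % 2 = d % 2) → (4 : ℤ) ∣ x ^ 2 - d := by
      intro x hx
      rcases Int.emod_two_eq_zero_or_one x with h2 | h2
      · obtain ⟨w, rfl⟩ : (2 : ℤ) ∣ x := Int.dvd_of_emod_eq_zero h2
        have h3 : (2 * w) ^ 2 = 4 * (w ^ 2) := by ring
        rw [h3]
        omega
      · obtain ⟨w, hw⟩ : ∃ w, x = 2 * w + 1 := ⟨x / 2, by omega⟩
        have h3 : x ^ 2 = 4 * (w ^ 2 + w) + 1 := by rw [hw]; ring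
        rw [h3]
        omega
    by_cases hpar : x1 % 2 = d % 2
    · exact ⟨x1, hcop.mul_dvd (key x1 hpar) hx1⟩
    · refine ⟨x1 + p, hcop.mul_dvd (key _ ?_) hx2⟩
      omega

theorem mem_FF_of_exc (A : ℝ) (hA : 1 < A) (X y m : ℕ) (hX : 2 ≤ X)
    (hy : (y : ℝ) < Real.log ((X : ℝ) / 2) ^ A)
    (hm : Real.log X ^ ((A - 1) / 2) < (m : ℝ) + 1) (d : ℤ) (hd : d ∈ Exc A X)
    (hXd : (X : ℤ) < 2 * |d|) : ∃ s ∈ FF X y m, d = -(s : ℤ) ∨ d = 4 * (-(s : ℤ)) := by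
  obtain ⟨hneg, hXle, hF, hcard⟩ := hd
  have habs : |d| = -d := abs_of_neg hneg
  rw [habs] at hXd
  have hXr : (2 : ℝ) ≤ X := by exact_mod_cast hX
  have hdr : |(d : ℝ)| = -(d : ℝ) := abs_of_neg (by exact_mod_cast hneg)
  have h1 : (X : ℝ) / 2 ≤ |(d : ℝ)| := by
    rw [hdr]
    have : (X : ℝ) < 2 * (-(d : ℝ)) := by exact_mod_cast hXd
    linarith
  have h2 : |(d : ℝ)| ≤ X := by
    rw [hdr]
    have : -(X : ℝ) ≤ d := by exact_mod_cast hXle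
    linarith
  have hl0 : 0 ≤ Real.log ((X : ℝ) / 2) := Real.log_nonneg (by linarith)
  have hl1 : Real.log ((X : ℝ) / 2) ≤ Real.log |(d : ℝ)| := Real.log_le_log (by linarith) h1
  have hl2 : Real.log |(d : ℝ)| ≤ Real.log X := Real.log_le_log (by linarith) h2
  -- it suffices to find s
  suffices hs : ∃ s : ℕ, Squarefree s ∧ 1 ≤ s ∧ s ≤ X ∧ (d = -(s : ℤ) ∨ d = 4 * (-(s : ℤ))) ∧
      (d % 4 = 1 ∨ d % 4 = 0) by
    obtain ⟨s, hsq, hs1, hsX, hds, hd4⟩ := hs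
    refine ⟨s, ?_, hds⟩
    unfold FF
    rw [mem_filter]
    refine ⟨?_, ?_⟩
    · unfold sqf
      rw [mem_filter, mem_Icc]
      exact ⟨⟨hs1, hsX⟩, hsq⟩
    · set P := (Icc 1 y).filter (fun p => p.Prime ∧ Odd p ∧ js (-(s : ℤ)) p = 1) with hP
      have hsub : (P : Set ℕ) ⊆ Spl A d := by
        intro p hp
        rw [mem_coe, hP, mem_filter, mem_Icc] at hp
        obtain ⟨⟨_, hpy⟩, hpp, hpo, hpj⟩ := hp
        obtain ⟨k1, k2⟩ := split_of_js s d p hpp hpo hpj hds hd4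
        refine ⟨hpp, ?_, k1, k2⟩
        have : (p : ℝ) ≤ y := by exact_mod_cast hpy
        calc (p : ℝ) ≤ y := this
          _ < Real.log ((X : ℝ) / 2) ^ A := hy
          _ ≤ _ := Real.rpow_le_rpow hl0 hl1 (by linarith)
      have h3 : P.card ≤ (Spl A d).ncard := by
        rw [← Set.ncard_coe_finset]
        exact Set.ncard_le_ncard hsub (finite_Spl A d)
      have h4 : (P.card : ℝ) < (m : ℝ) + 1 := by
        calc (P.card : ℝ) ≤ (Spl A d).ncard := by exact_mod_cast h3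
          _ < Real.log |(d : ℝ)| ^ ((A - 1) / 2) := hcard
          _ ≤ Real.log X ^ ((A - 1) / 2) :=
              Real.rpow_le_rpow (hl0.trans hl1) hl2 (by linarith)
          _ < _ := hm
      have h5 : P.card < m + 1 := by exact_mod_cast h4
      omega
  rcases hF with ⟨h4, hsq⟩ | ⟨m', hm', hm4, hsq⟩
  · refine ⟨d.natAbs, Int.squarefree_natAbs.2 hsq, by omega, by omega, Or.inl (by omega),
      Or.inl h4⟩
  · refine ⟨m'.natAbs, Int.squarefree_natAbs.2 hsq, by omega, by omega, Or.inr (by omega),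
      Or.inr (by omega)⟩

theorem finite_Exc (A : ℝ) (X : ℕ) : (Exc A X).Finite := by
  apply (Set.finite_Icc (-(X : ℤ)) 0).subset
  rintro d ⟨h1, h2, _⟩
  exact ⟨h2, h1.le⟩

theorem ncard_Exc_le (A : ℝ) (X : ℕ) : (Exc A X).ncard ≤ X := by
  have h : Exc A X ⊆ ((Finset.Icc (-(X : ℤ)) (-1) : Finset ℤ) : Set ℤ) := by
    rintro d ⟨h1, h2, _⟩
    rw [Finset.coe_Icc]
    exact ⟨h2, by omega⟩
  refine (Set.ncard_le_ncard h (Finset.finite_toSet _)).trans ?_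
  rw [Set.ncard_coe_finset, Int.card_Icc]
  omega

theorem step_card (A : ℝ) (hA : 1 < A) (X y m : ℕ) (hX : 2 ≤ X)
    (hy : (y : ℝ) < Real.log ((X : ℝ) / 2) ^ A)
    (hm : Real.log X ^ ((A - 1) / 2) < (m : ℝ) + 1) :
    (Exc A X).ncard ≤ (Exc A (X / 2)).ncard + 2 * (FF X y m).card := by
  classical
  have hsub : Exc A X ⊆ Exc A (X / 2) ∪
      (((FF X y m).image (fun s : ℕ => -(s : ℤ)) ∪ (FF X y m).image (fun s : ℕ => 4 * (-(s : ℤ))) :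
        Finset ℤ) : Set ℤ) := by
    intro d hd
    by_cases h : (X : ℤ) < 2 * |d|
    · right
      obtain ⟨s, hs, hds⟩ := mem_FF_of_exc A hA X y m hX hy hm d hd h
      rw [mem_coe, mem_union, mem_image, mem_image]
      rcases hds with h1 | h1
      · exact Or.inl ⟨s, hs, h1.symm⟩
      · exact Or.inr ⟨s, hs, h1.symm⟩
    · left
      obtain ⟨h1, h2, h3, h4⟩ := hd
      rw [abs_of_neg h1] at h
      exact ⟨h1, by omega, h3, h4⟩
  refine (Set.ncard_le_ncard hsub ((finite_Exc A _).union (Finset.finite_toSet _))).trans ?_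
  refine (Set.ncard_union_le _ _).trans ?_
  rw [Set.ncard_coe_finset]
  have h1 := card_union_le ((FF X y m).image (fun s : ℕ => -(s : ℤ)))
    ((FF X y m).image (fun s : ℕ => 4 * (-(s : ℤ))))
  have h2 : ((FF X y m).image (fun s : ℕ => -(s : ℤ))).card ≤ (FF X y m).card := card_image_le
  have h3 : ((FF X y m).image (fun s : ℕ => 4 * (-(s : ℤ)))).card ≤ (FF X y m).card := card_image_le
  omega

theorem FF_bound (hSP2 : SP2St) (A ε : ℝ) (hA : 1 < A) (hε : 0 < ε) : ∃ K : ℝ, 0 < K ∧ ∃ X0 : ℕ,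
    2 ≤ X0 ∧ ∀ X : ℕ, X0 ≤ X → ∃ y m : ℕ, (y : ℝ) < Real.log ((X : ℝ) / 2) ^ A ∧
      Real.log X ^ ((A - 1) / 2) < (m : ℝ) + 1 ∧
      ((FF X y m).card : ℝ) ≤ K * (X : ℝ) ^ (1 / A + ε) := by
  obtain ⟨C, hC, hsp⟩ := hSP2 (ε / 3) (by linarith)
  obtain ⟨X0, hX0⟩ := params A (ε / 3) hA (by linarith)
  refine ⟨8 * C, by positivity, max X0 2, le_max_right _ _, fun X hX => ?_⟩
  obtain ⟨y, k, m, N, hy2, hyT, hm, hmk, hNp, hyk, hp0, hpN, hfin⟩ :=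
    hX0 X ((le_max_left _ _).trans hX)
  have hX2 : 2 ≤ X := (le_max_right _ _).trans hX
  have hXpos : (0 : ℝ) < X := by exact_mod_cast (by omega : 0 < X)
  refine ⟨y, m, hyT, hm, ?_⟩
  have h1 := hsp X y k m N (by omega) hy2 hmk hNp
  have h2 := ratio (OP y).card N k hpN hp0
  change ((FF X y m).card : ℝ) * ((N.choose k : ℝ) / 2) ^ 2 ≤
    C * ((X : ℝ) * (y : ℝ) ^ k) ^ (ε / 3) * (X + (y : ℝ) ^ k) * ((OP y).card.choose k : ℝ) at h1
  have hNk : (0 : ℝ) < N.choose k := by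
    have : 0 < N.choose k := Nat.choose_pos (by omega)
    exact_mod_cast this
  have h3 : C * ((X : ℝ) * (y : ℝ) ^ k) ^ (ε / 3) * (X + (y : ℝ) ^ k) * ((OP y).card.choose k : ℝ) ≤
      C * ((X : ℝ) * X) ^ (ε / 3) * (X + X) *
        ((X : ℝ) ^ (-(1 - 1 / A) + ε / 3) * (N.choose k : ℝ) ^ 2) := by
    have h4 : ((OP y).card.choose k : ℝ) ≤
        (X : ℝ) ^ (-(1 - 1 / A) + ε / 3) * (N.choose k : ℝ) ^ 2 := by
      refine h2.trans ?_
      gcongr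
    gcongr
  have h5 : ((X : ℝ) * X) ^ (ε / 3) * (X + X) * (X : ℝ) ^ (-(1 - 1 / A) + ε / 3) =
      2 * (X : ℝ) ^ (1 / A + ε) := by
    have e1 : ((X : ℝ) * X) ^ (ε / 3) = (X : ℝ) ^ (2 * (ε / 3)) := by
      rw [← pow_two, ← Real.rpow_natCast, ← Real.rpow_mul hXpos.le]
      norm_num
    have e2 : (X : ℝ) + X = 2 * (X : ℝ) ^ (1 : ℝ) := by rw [Real.rpow_one]; ring
    rw [e1, e2]
    calc (X : ℝ) ^ (2 * (ε / 3)) * (2 * (X : ℝ) ^ (1 : ℝ)) * (X : ℝ) ^ (-(1 - 1 / A) + ε / 3) =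
        2 * ((X : ℝ) ^ (2 * (ε / 3)) * (X : ℝ) ^ (1 : ℝ) * (X : ℝ) ^ (-(1 - 1 / A) + ε / 3)) := by
          ring
      _ = _ := by
          rw [← Real.rpow_add hXpos, ← Real.rpow_add hXpos]
          congr 2
          ring
  have h6 : ((FF X y m).card : ℝ) * ((N.choose k : ℝ) / 2) ^ 2 ≤
      (8 * C * (X : ℝ) ^ (1 / A + ε)) * ((N.choose k : ℝ) / 2) ^ 2 := by
    calc ((FF X y m).card : ℝ) * ((N.choose k : ℝ) / 2) ^ 2 ≤
        C * ((X : ℝ) * X) ^ (ε / 3) * (X + X) *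
        ((X : ℝ) ^ (-(1 - 1 / A) + ε / 3) * (N.choose k : ℝ) ^ 2) := h1.trans h3
      _ = C * (((X : ℝ) * X) ^ (ε / 3) * (X + X) * (X : ℝ) ^ (-(1 - 1 / A) + ε / 3)) *
          (N.choose k : ℝ) ^ 2 := by ring
      _ = _ := by rw [h5]; ring
  exact le_of_mul_le_mul_right h6 (by positivity)

theorem exc_bound (hSP2 : SP2St) (A ε : ℝ) (hA : 1 < A) (hε : 0 < ε) : ∃ C : ℝ, 0 < C ∧
    ∀ X : ℕ, 1 ≤ X → ((Exc A X).ncard : ℝ) ≤ C * (X : ℝ) ^ (1 / A + ε) := by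
  obtain ⟨K, hK, X0, hX02, hX0⟩ := FF_bound hSP2 A ε hA hε
  obtain ⟨θ, hθ⟩ : ∃ θ : ℝ, θ = 1 / A + ε := ⟨_, rfl⟩
  have hA0 : 0 < A := by linarith
  have hθ0 : 0 < θ := by rw [hθ]; positivity
  rw [← hθ] at hX0 ⊢
  set r : ℝ := (1 / 2 : ℝ) ^ θ with hr
  have hr0 : 0 < r := by positivity
  have hr1 : r < 1 := Real.rpow_lt_one (by norm_num) (by norm_num) hθ0
  have h1r : 0 < 1 - r := by linarith
  set C : ℝ := X0 + 2 * K / (1 - r) with hC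
  have hCpos : 0 < C := by positivity
  have hCK : C * r + 2 * K ≤ C := by
    have h1 : 2 * K ≤ C * (1 - r) := by
      rw [hC, add_mul, div_mul_cancel₀ _ h1r.ne']
      have : 0 ≤ (X0 : ℝ) * (1 - r) := by positivity
      linarith
    linarith
  refine ⟨C, hCpos, fun X => ?_⟩
  induction X using Nat.strong_induction_on with
  | _ X ih =>
  intro hX1
  have hX1r : (1 : ℝ) ≤ X := by exact_mod_cast hX1
  have hXθ : 1 ≤ (X : ℝ) ^ θ := Real.one_le_rpow hX1r hθ0.le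
  by_cases hX : X < X0
  · have h1 : ((Exc A X).ncard : ℝ) ≤ X := by exact_mod_cast ncard_Exc_le A X
    have h2 : (X : ℝ) ≤ X0 := by exact_mod_cast hX.le
    have h3 : (X0 : ℝ) ≤ C := by
      rw [hC]
      have : 0 ≤ 2 * K / (1 - r) := by positivity
      linarith
    calc ((Exc A X).ncard : ℝ) ≤ C * 1 := by linarith
      _ ≤ _ := by gcongr
  · obtain ⟨y, m, hy, hm, hFF⟩ := hX0 X (by omega)
    have h1 := step_card A hA X y m (by omega) hy hm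
    have h2 := ih (X / 2) (by omega) (by omega)
    have h3 : (((X / 2 : ℕ) : ℝ)) ^ θ ≤ r * (X : ℝ) ^ θ := by
      have h4 : ((X / 2 : ℕ) : ℝ) ≤ 1 / 2 * X := by
        have := @Nat.cast_div_le ℝ _ _ _ X 2
        push_cast at this
        linarith
      calc (((X / 2 : ℕ) : ℝ)) ^ θ ≤ (1 / 2 * (X : ℝ)) ^ θ := by gcongr
        _ = _ := by rw [Real.mul_rpow (by norm_num) (by positivity)]
    calc ((Exc A X).ncard : ℝ) ≤ (Exc A (X / 2)).ncard + 2 * (FF X y m).card := by exact_mod_cast h1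
      _ ≤ C * (r * (X : ℝ) ^ θ) + 2 * (K * (X : ℝ) ^ θ) := by
          have h5 := mul_le_mul_of_nonneg_left h3 hCpos.le
          linarith
      _ = (C * r + 2 * K) * (X : ℝ) ^ θ := by ring
      _ ≤ C * (X : ℝ) ^ θ := by gcongr

/-- **Small split primes.** -/
theorem SP3 (hSP2 : SP2St) (A ε : ℝ) (hA : 1 < A) (hε : 0 < ε) : ∃ C : ℝ, 0 < C ∧
    ∀ X : ℕ, 1 ≤ X →
    (({d : ℤ | d < 0 ∧ -(X : ℤ) ≤ d ∧
      ((d % 4 = 1 ∧ Squarefree d) ∨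
        (∃ m : ℤ, d = 4 * m ∧ (m % 4 = 2 ∨ m % 4 = 3) ∧ Squarefree m)) ∧
      ((Set.ncard {p : ℕ | p.Prime ∧ (p : ℝ) < Real.log (|(d : ℝ)|) ^ A ∧ ¬ ((p : ℤ) ∣ d) ∧
        ∃ x : ℤ, (4 * (p : ℤ)) ∣ x ^ 2 - d} : ℝ) < Real.log (|(d : ℝ)|) ^ ((A - 1) / 2))}).ncard : ℝ) ≤
      C * (X : ℝ) ^ (1 / A + ε) :=
  exc_bound hSP2 A ε hA hε

end Pool.Agent.H355R3.RZ7SP3
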