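import Pool.Agent.H306R2.RZ.Defs4

/-!
Project RZ, task SP3, part A: choice of the parameters.
-/

set_option autoImplicit false

namespace Pool.Agent.H355R3.RZ7SP3

open Finset Filter Topology

theorem ratio (p0 N k : ℕ) (h : p0 ≤ 2 * (N + 1 - k)) (hp : 0 < p0) :
    (p0.choose k : ℝ) ≤ (4 * k / p0) ^ k * (N.choose k : ℝ) ^ 2 := by
  have hp' : (0 : ℝ) < p0 := by exact_mod_cast hp
  have h1 : (p0.choose k : ℝ) ≤ (p0 : ℝ) ^ k / k.factorial := Nat.choose_le_pow_div k p0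
  have h2 : ((N + 1 - k : ℕ) : ℝ) ^ k / k.factorial ≤ N.choose k := Nat.pow_le_choose k N
  have h3 : (p0 : ℝ) / 2 ≤ ((N + 1 - k : ℕ) : ℝ) := by
    have : (p0 : ℝ) ≤ 2 * ((N + 1 - k : ℕ) : ℝ) := by exact_mod_cast h
    linarith
  have hf : (0 : ℝ) < k.factorial := by exact_mod_cast Nat.factorial_pos k
  have h4 : ((p0 : ℝ) / 2) ^ k / k.factorial ≤ N.choose k := le_trans (by gcongr) h2
  have h5 : (((p0 : ℝ) / 2) ^ k / k.factorial) ^ 2 ≤ (N.choose k : ℝ) ^ 2 := by gcongr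
  have h6 : (k.factorial : ℝ) ≤ (k : ℝ) ^ k := by exact_mod_cast Nat.factorial_le_pow k
  have h7 : ((4 * k / p0 : ℝ)) * ((p0 : ℝ) / 2) ^ 2 = k * p0 := by field_simp; ring
  have h8 : (4 * k / p0 : ℝ) ^ k * (((p0 : ℝ) / 2) ^ k) ^ 2 = (k * p0 : ℝ) ^ k := by
    rw [← h7, mul_pow, ← pow_mul, ← pow_mul, mul_comm k 2]
  calc (p0.choose k : ℝ) ≤ (p0 : ℝ) ^ k / k.factorial := h1
    _ = k.factorial * (p0 : ℝ) ^ k / (k.factorial : ℝ) ^ 2 := by field_simp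
    _ ≤ (k : ℝ) ^ k * (p0 : ℝ) ^ k / (k.factorial : ℝ) ^ 2 := by gcongr
    _ = (4 * k / p0) ^ k * (((p0 : ℝ) / 2) ^ k / k.factorial) ^ 2 := by
        rw [← mul_pow, ← h8, div_pow (((p0 : ℝ) / 2) ^ k) _ 2, mul_div_assoc]
    _ ≤ _ := by gcongr

lemma pi_lower : ∀ᶠ M : ℕ in atTop, (M : ℝ) / (2 * Real.log M) ≤ (Nat.primeCounting M : ℝ) := by
  have h1 : ∀ᶠ M : ℕ in atTop, Real.log ((M : ℝ) + 1) ≤ 0.1 * ((M : ℝ) + 1) := by
    have h := Real.isLittleO_log_id_atTop.bound (show (0 : ℝ) < 0.1 by norm_num)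
    have h2 : Tendsto (fun M : ℕ => (M : ℝ) + 1) atTop atTop :=
      tendsto_atTop_add_const_right _ _ tendsto_natCast_atTop_atTop
    filter_upwards [h2.eventually h, h2.eventually (eventually_ge_atTop 1)] with M hM hM1
    simp only [id_eq, Real.norm_eq_abs] at hM
    rw [abs_of_nonneg (Real.log_nonneg hM1), abs_of_nonneg (by linarith)] at hM
    exact hM
  filter_upwards [h1, eventually_ge_atTop 3] with M hM hM3
  have h2 := Chebyshev.pi_ge M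
  have hM3' : (3 : ℝ) ≤ M := by exact_mod_cast hM3
  have hlog : 0 < Real.log M := Real.log_pos (by linarith)
  refine le_trans ?_ h2
  rw [div_le_div_iff₀ (by positivity) hlog]
  have h4 : (0.69 : ℝ) ≤ Real.log 2 := by
    have := Real.log_two_gt_d9; linarith
  have h5 : (M : ℝ) / 2 ≤ M * Real.log 2 - Real.log (M + 1) := by nlinarith
  nlinarith

/-- odd primes up to `y` -/
def OP (y : ℕ) : Finset ℕ := (Icc 1 y).filter (fun p => p.Prime ∧ Odd p)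

theorem card_OP (y : ℕ) : Nat.primeCounting y ≤ (OP y).card + 1 := by
  rw [Nat.primeCounting, Nat.primeCounting', Nat.count_eq_card_filter_range]
  have h : (range (y + 1)).filter Nat.Prime ⊆ insert 2 (OP y) := by
    intro p hp
    rw [mem_filter, mem_range] at hp
    rw [mem_insert]
    rcases hp.2.eq_two_or_odd' with h | h
    · exact Or.inl h
    · right
      unfold OP
      rw [mem_filter, mem_Icc]
      exact ⟨⟨hp.2.one_le, by omega⟩, hp.2, h⟩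
  exact (card_le_card h).trans (card_insert_le _ _)

/-! ### real asymptotics -/

theorem ev_const_rpow (c a b : ℝ) (hab : a < b) : ∀ᶠ L : ℝ in atTop, c * L ^ a ≤ L ^ b := by
  have h := tendsto_rpow_atTop (y := b - a) (by linarith)
  filter_upwards [h.eventually_ge_atTop c, eventually_gt_atTop 0] with L hL hL0
  have e : L ^ b = L ^ (b - a) * L ^ a := by
    rw [← Real.rpow_add hL0]; congr 1; ring
  rw [e]
  gcongr

theorem ev_shift (A : ℝ) (hA : 1 < A) : ∀ᶠ L : ℝ in atTop,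
    L ^ A / 2 ≤ (L - Real.log 2) ^ A - 1 := by
  have hA0 : 0 < A := by linarith
  set c : ℝ := (3 / 4 : ℝ) ^ (1 / A) with hc
  have hc0 : 0 < c := by positivity
  have hc1 : c < 1 := Real.rpow_lt_one (by norm_num) (by norm_num) (by positivity)
  have hcA : c ^ A = 3 / 4 := by
    rw [hc, ← Real.rpow_mul (by norm_num), one_div, inv_mul_cancel₀ hA0.ne', Real.rpow_one]
  filter_upwards [(tendsto_rpow_atTop hA0).eventually_ge_atTop 4,
    eventually_ge_atTop (Real.log 2 / (1 - c)), eventually_gt_atTop 0] with L h1 h2 h3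
  rw [div_le_iff₀ (by linarith)] at h2
  have h4 : c * L ≤ L - Real.log 2 := by linarith
  have h5 : (c * L) ^ A ≤ (L - Real.log 2) ^ A := Real.rpow_le_rpow (by positivity) h4 hA0.le
  rw [Real.mul_rpow hc0.le h3.le, hcA] at h5
  linarith

theorem ev_log (A : ℝ) (a b : ℝ) (hab : a < b) : ∀ᶠ L : ℝ in atTop,
    A * Real.log L * L ^ a ≤ L ^ b := by
  have hd : 0 < (b - a) / 2 := by linarith
  have h := (isLittleO_log_rpow_atTop hd).bound (show (0 : ℝ) < 1 by norm_num)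
  filter_upwards [h, ev_const_rpow |A| ((b + a) / 2) b (by linarith), eventually_ge_atTop 1]
    with L h1 h2 h3
  have hL0 : 0 < L := by linarith
  rw [Real.norm_eq_abs, Real.norm_eq_abs, abs_of_nonneg (Real.log_nonneg h3),
    abs_of_nonneg (by positivity), one_mul] at h1
  calc A * Real.log L * L ^ a ≤ |A| * L ^ ((b - a) / 2) * L ^ a := by
        have h4 : A * Real.log L ≤ |A| * L ^ ((b - a) / 2) :=
          mul_le_mul (le_abs_self A) h1 (Real.log_nonneg h3) (abs_nonneg _)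
        gcongr
    _ = |A| * L ^ ((b + a) / 2) := by
        rw [mul_assoc, ← Real.rpow_add hL0]
        congr 2
        ring
    _ ≤ L ^ b := h2

theorem ev_exp (β η : ℝ) (hη : 0 < η) : ∀ᶠ L : ℝ in atTop, L ^ β ≤ Real.exp (η * L) := by
  have h := (isLittleO_rpow_exp_pos_mul_atTop β hη).bound (show (0 : ℝ) < 1 by norm_num)
  filter_upwards [h, eventually_gt_atTop 0] with L h1 h2
  rw [Real.norm_eq_abs, Real.norm_eq_abs, abs_of_nonneg (by positivity),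
    abs_of_nonneg (by positivity), one_mul] at h1
  exact h1

theorem st_Q {A L LA Q yr pc p0 : ℝ} (h1 : yr / (2 * Real.log yr) ≤ pc) (h2 : pc ≤ p0 + 1)
    (hly : 0 < Real.log yr) (hlogy : Real.log yr ≤ A * Real.log L) (hQ0 : 1 ≤ Q)
    (g3 : 8 * A * Real.log L * Q ≤ LA) (hy2 : LA / 2 ≤ yr) : Q ≤ p0 := by
  have h3 : 2 * Q ≤ yr / (2 * Real.log yr) := by
    rw [le_div_iff₀ (by linarith)]
    calc 2 * Q * (2 * Real.log yr) ≤ 2 * Q * (2 * (A * Real.log L)) := by gcongr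
      _ = (8 * A * Real.log L * Q) / 2 := by ring
      _ ≤ LA / 2 := by linarith
      _ ≤ yr := hy2
  linarith

theorem st_mk {A L Q m k p0 : ℝ} (hL0 : 0 < L) (hm1 : m ≤ L ^ ((A - 1) / 2)) (hk0 : 0 ≤ k)
    (_hm0 : 0 ≤ m) (hkL : k ≤ L) (g6 : 16 * L ≤ Q) (g7 : 32 * L ^ ((A + 1) / 2) ≤ Q)
    (hQ : Q ≤ p0) : 4 * m * k + k ≤ p0 / 4 := by
  have h1 : m * k ≤ L ^ ((A + 1) / 2) := by
    calc m * k ≤ L ^ ((A - 1) / 2) * L := by gcongr
      _ = L ^ ((A - 1) / 2) * L ^ (1 : ℝ) := by rw [Real.rpow_one]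
      _ = L ^ ((A + 1) / 2) := by
        rw [← Real.rpow_add hL0]
        congr 1
        ring
  linarith

theorem st_ratio {A η β L Q k p0 : ℝ} (hβ : β = A - 1 - 2 * η) (hL0 : 0 < L) (hQd : Q = L ^ (A - η))
    (hkL : k ≤ L) (hQ : Q ≤ p0) (g8 : 4 ≤ L ^ η) : 4 * k / p0 ≤ L ^ (-β) := by
  have hQ0 : 0 < Q := by rw [hQd]; positivity
  have hp0 : 0 < p0 := by linarith
  have h2 : 4 * L / Q ≤ L ^ (-β) := by
    rw [div_le_iff₀ hQ0, hQd, ← Real.rpow_add hL0]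
    have e : -β + (A - η) = 1 + η := by rw [hβ]; ring
    rw [e, Real.rpow_add hL0, Real.rpow_one]
    nlinarith
  calc 4 * k / p0 ≤ 4 * L / p0 := by gcongr
    _ ≤ 4 * L / Q := by gcongr
    _ ≤ _ := h2

theorem st_final {A ε η β L X k p0 : ℝ} {kn : ℕ} (hkn : k = kn) (hA : 1 < A) (hη0 : 0 < η)
    (hη1 : η ≤ ε / 4) (hβ : β = A - 1 - 2 * η) (hβ0 : 0 < β) (hX : 0 < X) (hL : L = Real.log X)
    (hL0 : 0 < L) (hlogL : 0 < Real.log L) (hr : 4 * k / p0 ≤ L ^ (-β)) (hr0 : 0 ≤ 4 * k / p0)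
    {ly : ℝ} (hly : 0 < ly) (hlogy : ly ≤ A * Real.log L) (hk2 : L / ly < k + 1)
    (g9 : L ^ β ≤ Real.exp (ε / 2 * L)) :
    (4 * k / p0) ^ kn ≤ X ^ (-(1 - 1 / A) + ε) := by
  have hA0 : 0 < A := by linarith
  have f2 : (4 * k / p0) ^ kn ≤ (L ^ (-β)) ^ kn := by gcongr
  have f3 : (L ^ (-β)) ^ kn = Real.exp (-(β * Real.log L * k)) := by
    rw [← Real.rpow_natCast, ← Real.rpow_mul hL0.le, Real.rpow_def_of_pos hL0, hkn]
    congr 1
    ring
  have f4 : L / A - Real.log L ≤ Real.log L * k := by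
    have h1 : L / (A * Real.log L) ≤ L / ly := by gcongr
    have h2 : L / (A * Real.log L) < k + 1 := lt_of_le_of_lt h1 hk2
    have h3 : Real.log L * (L / (A * Real.log L)) ≤ Real.log L * (k + 1) := by gcongr
    have h4 : Real.log L * (L / (A * Real.log L)) = L / A := by field_simp
    linarith
  have f5 : Real.exp (-(β * Real.log L * k)) ≤ Real.exp (-(β / A * L)) * L ^ β := by
    rw [Real.rpow_def_of_pos hL0, ← Real.exp_add]
    apply Real.exp_le_exp.2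
    have h1 := mul_le_mul_of_nonneg_left f4 hβ0.le
    have h2 : β / A * L = β * (L / A) := by ring
    rw [h2]
    have h3 : β * (L / A - Real.log L) = β * (L / A) - β * Real.log L := by ring
    have h4 : β * (Real.log L * k) = β * Real.log L * k := by ring
    rw [h3, h4] at h1
    linarith
  have f6 : Real.exp (-(β / A * L)) * L ^ β ≤ Real.exp (-(β / A * L)) * Real.exp (ε / 2 * L) := by
    gcongr
  refine (f2.trans (f3.le.trans (f5.trans f6))).trans ?_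
  rw [← Real.exp_add, Real.rpow_def_of_pos hX, ← hL]
  apply Real.exp_le_exp.2
  have h1 : -(β / A * L) + ε / 2 * L = L * (-(β / A) + ε / 2) := by ring
  rw [h1]
  apply mul_le_mul_of_nonneg_left _ hL0.le
  have h2 : β / A = 1 - 1 / A - 2 * η / A := by
    rw [hβ]
    field_simp
  have h3 : 2 * η / A ≤ 2 * η := by
    rw [div_le_iff₀ hA0]
    nlinarith
  rw [h2]
  linarith

/-- the events -/
structure Evs (A ε η β Y0 L : ℝ) : Prop where
  g1 : 10 ≤ L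
  g2 : L ^ A / 2 ≤ (L - Real.log 2) ^ A - 1
  g3 : 8 * A * Real.log L * L ^ (A - η) ≤ L ^ A
  g4 : 1 ≤ L ^ (A - η)
  g5 : 16 * L ^ ((A - 1) / 2) ≤ L ^ (A - η)
  g6 : 16 * L ^ (1 : ℝ) ≤ L ^ (A - η)
  g7 : 32 * L ^ ((A + 1) / 2) ≤ L ^ (A - η)
  g8 : 4 * L ^ (0 : ℝ) ≤ L ^ η
  g9 : L ^ β ≤ Real.exp (ε / 2 * L)
  g10 : 8 * L ^ (0 : ℝ) ≤ L ^ A
  gY : 2 * (Y0 + 1) ≤ L ^ A

theorem evs (A ε η β Y0 : ℝ) (hA : 1 < A) (hε : 0 < ε) (hη0 : 0 < η) (hη2 : η ≤ (A - 1) / 8) :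
    ∀ᶠ L : ℝ in atTop, Evs A ε η β Y0 L := by
  have hA0 : 0 < A := by linarith
  filter_upwards [eventually_ge_atTop 10, ev_shift A hA, ev_log (8 * A) (A - η) A (by linarith),
      (tendsto_rpow_atTop (y := A - η) (by linarith)).eventually_ge_atTop 1,
      ev_const_rpow 16 ((A - 1) / 2) (A - η) (by linarith),
      ev_const_rpow 16 1 (A - η) (by linarith), ev_const_rpow 32 ((A + 1) / 2) (A - η) (by linarith),
      ev_const_rpow 4 0 η hη0, ev_exp β (ε / 2) (by linarith), ev_const_rpow 8 0 A hA0,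
      (tendsto_rpow_atTop hA0).eventually_ge_atTop (2 * (Y0 + 1))]
      with L h1 h2 h3 h4 h5 h6 h7 h8 h9 h10 h11
  exact ⟨h1, h2, h3, h4, h5, h6, h7, h8, h9, h10, h11⟩

/-- the natural number `y` -/
theorem st_y {A L T : ℝ} (hT : T = (L - Real.log 2) ^ A) (hA0 : 0 < A) (g1 : 10 ≤ L)
    (g2 : L ^ A / 2 ≤ T - 1) (g10 : 8 ≤ L ^ A) : ∃ y : ℕ, (y : ℝ) < T ∧ L ^ A / 2 ≤ y ∧
      4 ≤ (y : ℝ) ∧ Real.log y ≤ A * Real.log L ∧ 1 ≤ Real.log y := by
  have hTpos : 0 < T := by linarith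
  have hceil : 1 ≤ ⌈T⌉₊ := Nat.one_le_iff_ne_zero.2 (by
    rw [Ne, Nat.ceil_eq_zero]; linarith)
  have e : ((⌈T⌉₊ - 1 : ℕ) : ℝ) = (⌈T⌉₊ : ℝ) - 1 := by
    rw [Nat.cast_sub hceil]; simp
  have h1 : (⌈T⌉₊ : ℝ) < T + 1 := Nat.ceil_lt_add_one hTpos.le
  have h2 : T ≤ ⌈T⌉₊ := Nat.le_ceil T
  have hy2 : L ^ A / 2 ≤ (⌈T⌉₊ : ℝ) - 1 := by linarith
  have hypos : (0 : ℝ) < (⌈T⌉₊ : ℝ) - 1 := by linarith
  have hyle : (⌈T⌉₊ : ℝ) - 1 ≤ L ^ A := by
    have h3 : (⌈T⌉₊ : ℝ) - 1 ≤ T := by linarith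
    refine h3.trans ?_
    rw [hT]
    apply Real.rpow_le_rpow _ _ hA0.le
    · have := Real.log_two_lt_d9
      linarith
    · have : 0 < Real.log 2 := Real.log_pos (by norm_num)
      linarith
  refine ⟨⌈T⌉₊ - 1, ?_, ?_, ?_, ?_, ?_⟩
  · rw [e]; linarith
  · rw [e]; exact hy2
  · rw [e]; linarith
  · rw [e]
    have := Real.log_le_log hypos hyle
    rwa [Real.log_rpow (by linarith)] at this
  · rw [e, Real.le_log_iff_exp_le hypos]
    have := Real.exp_one_lt_d9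
    linarith

/-- the parameters -/
theorem params (A ε : ℝ) (hA : 1 < A) (hε : 0 < ε) : ∃ X0 : ℕ, ∀ X : ℕ, X0 ≤ X →
    ∃ y k m N : ℕ, 2 ≤ y ∧ (y : ℝ) < (Real.log ((X : ℝ) / 2)) ^ A ∧
      (Real.log X) ^ ((A - 1) / 2) < (m : ℝ) + 1 ∧ 4 * m * k + k ≤ N ∧
      N + m + Nat.log 2 X ≤ (OP y).card ∧ (y : ℝ) ^ k ≤ X ∧ 0 < (OP y).card ∧
      (OP y).card ≤ 2 * (N + 1 - k) ∧
      (4 * (k : ℝ) / ((OP y).card : ℝ)) ^ k ≤ (X : ℝ) ^ (-(1 - 1 / A) + ε) := by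
  have hA0 : 0 < A := by linarith
  obtain ⟨η, hη0, hη1, hη2⟩ : ∃ η : ℝ, 0 < η ∧ η ≤ ε / 4 ∧ η ≤ (A - 1) / 8 :=
    ⟨min (ε / 4) ((A - 1) / 8), lt_min (by linarith) (by linarith), min_le_left _ _,
      min_le_right _ _⟩
  obtain ⟨β, hβ⟩ : ∃ β : ℝ, β = A - 1 - 2 * η := ⟨_, rfl⟩
  have hβ0 : 0 < β := by linarith
  have hlogX : Tendsto (fun X : ℕ => Real.log (X : ℝ)) atTop atTop :=
    Real.tendsto_log_atTop.comp tendsto_natCast_atTop_atTop
  -- Chebyshev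
  obtain ⟨Y0, hY0⟩ := eventually_atTop.1 pi_lower
  obtain ⟨X0, hX0⟩ := eventually_atTop.1 (hlogX.eventually (evs A ε η β Y0 hA hε hη0 hη2))
  refine ⟨max X0 2, fun X hX => ?_⟩
  have E := hX0 X ((le_max_left _ _).trans hX)
  clear hX0 hlogX
  have hX2 : 2 ≤ X := (le_max_right _ _).trans hX
  have hXpos : (0 : ℝ) < X := by exact_mod_cast (by omega : 0 < X)
  obtain ⟨L, hL⟩ : ∃ L : ℝ, L = Real.log (X : ℝ) := ⟨_, rfl⟩
  rw [← hL] at E ⊢
  have hL0 : 0 < L := by linarith [E.g1]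
  have hlogdiv : Real.log ((X : ℝ) / 2) = L - Real.log 2 := by
    rw [Real.log_div hXpos.ne' (by norm_num), hL]
  rw [hlogdiv]
  have g10 : 8 ≤ L ^ A := by
    have := E.g10
    rwa [Real.rpow_zero, mul_one] at this
  have g8 : 4 ≤ L ^ η := by
    have := E.g8
    rwa [Real.rpow_zero, mul_one] at this
  obtain ⟨T, hT⟩ : ∃ T : ℝ, T = (L - Real.log 2) ^ A := ⟨_, rfl⟩
  have g2 : L ^ A / 2 ≤ T - 1 := by rw [hT]; exact E.g2
  obtain ⟨y, hyT, hy2, hy4, hlogy, hlogy1⟩ := st_y hT hA0 E.g1 g2 g10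
  have hyY : Y0 ≤ y := by
    have h1 : (Y0 : ℝ) ≤ y := by linarith [E.gY]
    exact_mod_cast h1
  obtain ⟨p0, hp0⟩ : ∃ p0 : ℕ, p0 = (OP y).card := ⟨_, rfl⟩
  obtain ⟨Q, hQd⟩ : ∃ Q : ℝ, Q = L ^ (A - η) := ⟨_, rfl⟩
  have hpc : (Nat.primeCounting y : ℝ) ≤ p0 + 1 := by
    rw [hp0]; exact_mod_cast card_OP y
  have q3 := E.g3
  have q4 := E.g4
  have q5 := E.g5
  have q6 := E.g6
  have q7 := E.g7
  rw [← hQd] at q3 q4 q5 q6 q7
  rw [Real.rpow_one] at q6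
  have hQ : Q ≤ p0 := st_Q (hY0 y hyY) hpc (by linarith) hlogy q4 q3 hy2
  have hp0pos : (0 : ℝ) < p0 := by linarith
  have hlogL : 0 < Real.log L := Real.log_pos (by linarith [E.g1])
  -- m, l, k
  obtain ⟨m, hm1, hm2⟩ : ∃ m : ℕ, (m : ℝ) ≤ L ^ ((A - 1) / 2) ∧ L ^ ((A - 1) / 2) < (m : ℝ) + 1 :=
    ⟨⌊L ^ ((A - 1) / 2)⌋₊, Nat.floor_le (by positivity), Nat.lt_floor_add_one _⟩
  obtain ⟨l, hl⟩ : ∃ l : ℕ, l = Nat.log 2 X := ⟨_, rfl⟩
  have hl2 : (l : ℝ) ≤ 2 * L := by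
    have h1 : (2 : ℝ) ^ l ≤ X := by
      rw [hl]
      exact_mod_cast Nat.pow_log_le_self 2 (by omega)
    have h2 := Real.log_le_log (by positivity) h1
    rw [Real.log_pow, ← hL] at h2
    have h3 : (0 : ℝ) ≤ l := Nat.cast_nonneg _
    have hlog2' : (0.69 : ℝ) ≤ Real.log 2 := by
      have := Real.log_two_gt_d9; linarith
    have h4 : (l : ℝ) * 0.69 ≤ l * Real.log 2 := mul_le_mul_of_nonneg_left hlog2' h3
    linarith
  obtain ⟨k, hk1, hk2⟩ : ∃ k : ℕ, (k : ℝ) ≤ L / Real.log y ∧ L / Real.log y < (k : ℝ) + 1 :=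
    ⟨⌊L / Real.log y⌋₊, Nat.floor_le (by positivity), Nat.lt_floor_add_one _⟩
  have hk0 : (0 : ℝ) ≤ k := Nat.cast_nonneg _
  have hm0 : (0 : ℝ) ≤ m := Nat.cast_nonneg _
  have hkL : (k : ℝ) ≤ L := by
    refine hk1.trans ?_
    rw [div_le_iff₀ (by linarith)]
    have := mul_le_mul_of_nonneg_left hlogy1 hL0.le
    linarith
  have hmk : (4 * m * k + k : ℝ) ≤ p0 / 4 := st_mk hL0 hm1 hk0 hm0 hkL q6 q7 hQ
  have hml : (m : ℝ) + l ≤ p0 / 4 := by linarith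
  have hkN : (k : ℝ) ≤ p0 / 4 := by
    have h1 : (0 : ℝ) ≤ 4 * m * k := by positivity
    linarith
  have hratio : 4 * (k : ℝ) / p0 ≤ L ^ (-β) := st_ratio hβ hL0 hQd hkL hQ g8
  have hfin := st_final (kn := k) rfl hA hη0 hη1 hβ hβ0 hXpos hL hL0 hlogL hratio (by positivity)
    (by linarith : 0 < Real.log y) hlogy hk2 E.g9
  have hmlN : m + l ≤ p0 := by
    have : ((m + l : ℕ) : ℝ) ≤ p0 := by push_cast; linarith
    exact_mod_cast this
  obtain ⟨N, hNe⟩ : ∃ N : ℕ, N + m + l = p0 := ⟨p0 - m - l, by omega⟩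
  have hNr : (N : ℝ) + m + l = p0 := by exact_mod_cast hNe
  have hNge : 3 / 4 * (p0 : ℝ) ≤ N := by linarith
  have c1 : 4 * m * k + k ≤ N := by
    have : ((4 * m * k + k : ℕ) : ℝ) ≤ N := by push_cast; linarith
    exact_mod_cast this
  have c2 : p0 ≤ 2 * (N + 1 - k) := by
    have h1 : p0 + 2 * k ≤ 2 * N := by
      have : ((p0 + 2 * k : ℕ) : ℝ) ≤ ((2 * N : ℕ) : ℝ) := by push_cast; linarith
      exact_mod_cast this
    omega
  have hypos : (0 : ℝ) < y := by linarith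
  have c3 : (y : ℝ) ^ k ≤ X := by
    rw [← Real.log_le_log_iff (by positivity) hXpos, Real.log_pow, ← hL]
    calc (k : ℝ) * Real.log y ≤ L / Real.log y * Real.log y := by gcongr
      _ = L := by field_simp
  rw [← hl]
  refine ⟨y, k, m, N, ?_, by rw [← hT]; exact hyT, hm2, c1, by rw [← hp0]; exact hNe.le, c3,
    by rw [← hp0]; exact_mod_cast hp0pos, by rw [← hp0]; exact c2, by rw [← hp0]; exact hfin⟩
  have : (2 : ℝ) ≤ y := by linarith
  exact_mod_cast this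

end Pool.Agent.H355R3.RZ7SP3
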